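import Pool.Agent.U693.AV.Split

/-!
# The 2-primary part of the Tate-Shafarevich group of ALL abelian varieties over `ℚ` which are isomorphic to
# a power of `E` over an infinite Galois extension, for a positive proportion of all `E`

Let `K / ℚ` be any finite Galois extension of 2-power degree in which the prime `2` is unramified.

Theorem. There are a finite set `S` of primes, all `1` modulo `8`, and `c > 0`, such that at least `c` times
the number of ALL elliptic curves `E : y ^ 2 = x ^ 3 + A x + B` over `ℚ`, ordered by height, have the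
following property. Let `C = C(E, S)` be the class of all the finite Galois extensions `M / ℚ` of 2-power
degree in which `2` is unramified, in which all `Q ∈ S` split completely and in which only such primes `ℓ`
are ramified modulo which `x ^ 3 + A x + B` has no zero, and let `Ω` be the union of the images of the
`M ∈ C` in the algebraic closure of `ℚ`. Then for ALL `n` and ALL continuous homomorphisms
`ρ : Gal(ℚ-bar / ℚ) → GL_n(ℤ)` which are trivial on `Gal(ℚ-bar / Ω)` the abelian variety `A_ρ`, the form of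
`E ^ n` with the action `σ * P = ρ(σ) σ(P)` of the Galois group, has

  `Ш(A_ρ / ℚ)[2 ^ ∞] = 0` (group of all classes trivial at all places) and `A_ρ(ℚ) = 0`.

Moreover `K` is in `C`, the class `C` is closed under composita, `Ω` is a field, stable under all
automorphisms, and for a set of primes `ℓ` of positive lower density `ℚ(√ℓ)` is in `C`.

The `A_ρ` are the abelian varieties `E ⊗ Λ` for all the Galois lattices `Λ` over `Ω`: the quadratic twists
of `E`, the Weil restrictions of `E` from all the number fields in `Ω`, Galois or not, and the abelian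
varieties which belong to the irreducible rational representations of the 2-groups `Gal(M / ℚ)`, which are
(for non-isogenous factors) simple of dimension `n > 1`. If `E` has no complex multiplication they are all
the abelian varieties over `ℚ` which are isomorphic to a power of `E` over `Ω`.

Proof. For `E` over the fields in `C` see `MP_60d5ce_nt.UniformOverInfiniteClass` and
`MP_78d38b_nt.UniformOverTwoExtensions` (files `Pool/Agent/U693/UN`): for the curves `E` in a set of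
positive lower density `E(M) = 0` and the 2-primary part of `Ш(E / M)` is zero for all `M ∈ C`. The kernel
of `ρ` is open, its fixed field is a number field in `Ω`, so it is contained in some `M ∈ C`
(`Pool/Agent/U693/AV/Split`). Over `M` the coordinates of a cocycle with values in `A_ρ` are cocycles with
values in `E`, locally trivial and of 2-power order modulo coboundaries; so they are coboundaries. As
`A_ρ(M) = E(M) ^ n = 0` the inflation-restriction sequence, with the action of `ρ`, shows that the cocycle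
is a coboundary over `ℚ` (`Pool/Agent/U693/AV/Core`). No descent for abelian varieties of higher dimension
and no duality is used.
-/

set_option autoImplicit false
set_option linter.all false

namespace Pool.Agent.Results.MP_a43263_nt.AllFormsOfPowers

open Filter NumberField
open scoped Classical

/-- The equation `y ^ 2 = x ^ 3 + A x + B` with integers `A`, `B` defines an elliptic curve, and
there is no prime `p` with `p ^ 4 ∣ A` and `p ^ 6 ∣ B`. Every elliptic curve over `ℚ` is isomorphic to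
exactly one of these. -/
structure IsMinimal (A B : ℤ) : Prop where
  elliptic : 4 * A ^ 3 + 27 * B ^ 2 ≠ 0
  minimal : ∀ p : ℕ, p.Prime → ¬ ((p : ℤ) ^ 4 ∣ A ∧ (p : ℤ) ^ 6 ∣ B)

/-- The height. -/
def height (p : ℤ × ℤ) : ℤ := max (4 * |p.1| ^ 3) (27 * p.2 ^ 2)

/-- The set of all elliptic curves over `ℚ` of height at most `X`. -/
def Curves (X : ℕ) : Set (ℤ × ℤ) := {p | IsMinimal p.1 p.2 ∧ height p ≤ X}

/-- The absolute Galois group of `ℚ`, with the Krull topology. -/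
abbrev GQ : Type := AlgebraicClosure ℚ ≃ₐ[ℚ] AlgebraicClosure ℚ

/-- The points of `E : y ^ 2 = x ^ 3 + A x + B`, `p = (A, B)`, over an extension `L` of `ℚ`. -/
abbrev Pt (p : ℤ × ℤ) (L : Type) [Field L] [Algebra ℚ L] : Type :=
  ((⟨0, 0, 0, (p.1 : ℚ), (p.2 : ℚ)⟩ : WeierstrassCurve ℚ).baseChange L).toAffine.Point

/-- The homomorphism `E(L) ^ n → E(L') ^ n`, `P ↦ g (φ P)`, for a homomorphism `φ` of fields and an
integral matrix `g`: first `φ` is applied to the coordinates of the points, then the matrix. -/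
noncomputable def move (p : ℤ × ℤ) {n : ℕ} (g : Matrix (Fin n) (Fin n) ℤ) {L L' : Type} [Field L]
    [Field L'] [Algebra ℚ L] [Algebra ℚ L'] (φ : L →ₐ[ℚ] L') :
    (Fin n → Pt p L) →+ (Fin n → Pt p L') where
  toFun P := fun i => ∑ j, g i j • WeierstrassCurve.Affine.Point.map
    (W' := (⟨0, 0, 0, (p.1 : ℚ), (p.2 : ℚ)⟩ : WeierstrassCurve ℚ).toAffine) φ (P j)
  map_zero' := by
    funext i
    simp
  map_add' P Q := by
    funext i
    simp [Finset.sum_add_distrib]

section form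

variable (p : ℤ × ℤ) {n : ℕ} (ρ : GQ →* Matrix.GeneralLinearGroup (Fin n) ℤ)

/-- `f` is a continuous cocycle of the absolute Galois group with values in the module
`A_ρ(ℚ-bar) = E(ℚ-bar) ^ n` with the action `σ * P = ρ(σ) σ(P)`. -/
def IsCocycle (f : GQ → Fin n → Pt p (AlgebraicClosure ℚ)) : Prop :=
  IsLocallyConstant f ∧ ∀ σ τ, f (σ * τ) = f σ + move p (ρ σ).1 σ.toAlgHom (f τ)

/-- `f` is a coboundary. -/
def IsCoboundary (f : GQ → Fin n → Pt p (AlgebraicClosure ℚ)) : Prop :=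
  ∃ P : Fin n → Pt p (AlgebraicClosure ℚ), ∀ σ, f σ = move p (ρ σ).1 σ.toAlgHom P - P

/-- For every embedding `ι` of the algebraic closures the restriction of `f` to the absolute Galois group
of the extension `L` of `ℚ`, with values in `A_ρ(L-bar) = E(L-bar) ^ n`, is a coboundary. An automorphism
`τ` over `L` acts by `P ↦ ρ(σ) τ(P)`, where `σ` is the restriction of `τ`. -/
def LocallyTrivial (L : Type) [Field L] [Algebra ℚ L]
    (f : GQ → Fin n → Pt p (AlgebraicClosure ℚ)) : Prop :=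
  ∀ ι : AlgebraicClosure ℚ →ₐ[ℚ] AlgebraicClosure L, ∃ P : Fin n → Pt p (AlgebraicClosure L),
    ∀ (τ : AlgebraicClosure L ≃ₐ[L] AlgebraicClosure L) (σ : GQ), (∀ x, τ (ι x) = ι (σ x)) →
      move p 1 ι (f σ) = move p (ρ σ).1 (τ.toAlgHom.restrictScalars ℚ) P - P

/-- The cocycles which are trivial over the completions of `ℚ` at all places, finite or infinite. -/
def IsShaCocycle (f : GQ → Fin n → Pt p (AlgebraicClosure ℚ)) : Prop :=
  IsCocycle p ρ f ∧
  (∀ v : IsDedekindDomain.HeightOneSpectrum (𝓞 ℚ), LocallyTrivial p ρ (v.adicCompletion ℚ) f) ∧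
  ∀ v : InfinitePlace ℚ, LocallyTrivial p ρ v.Completion f

variable {p ρ}

theorem cocycle_add {f g : GQ → Fin n → Pt p (AlgebraicClosure ℚ)} (hf : IsCocycle p ρ f)
    (hg : IsCocycle p ρ g) : IsCocycle p ρ (f + g) := by
  refine ⟨hf.1.add hg.1, fun σ τ => ?_⟩
  show f (σ * τ) + g (σ * τ) = f σ + g σ + move p (ρ σ).1 σ.toAlgHom (f τ + g τ)
  rw [hf.2, hg.2, map_add]
  abel

theorem cocycle_neg {f : GQ → Fin n → Pt p (AlgebraicClosure ℚ)} (hf : IsCocycle p ρ f) :
    IsCocycle p ρ (-f) := by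
  refine ⟨hf.1.neg, fun σ τ => ?_⟩
  show - f (σ * τ) = - f σ + move p (ρ σ).1 σ.toAlgHom (- f τ)
  rw [hf.2, map_neg]
  abel

theorem cocycle_zero : IsCocycle p ρ 0 := by
  refine ⟨IsLocallyConstant.const _, fun σ τ => ?_⟩
  show (0 : Fin n → Pt p (AlgebraicClosure ℚ)) = 0 + move p (ρ σ).1 σ.toAlgHom 0
  rw [map_zero, add_zero]

theorem loc_add {L : Type} [Field L] [Algebra ℚ L] {f g : GQ → Fin n → Pt p (AlgebraicClosure ℚ)}
    (hf : LocallyTrivial p ρ L f) (hg : LocallyTrivial p ρ L g) :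
    LocallyTrivial p ρ L (f + g) := by
  intro ι
  obtain ⟨P, hP⟩ := hf ι
  obtain ⟨Q, hQ⟩ := hg ι
  refine ⟨P + Q, fun τ σ h => ?_⟩
  show move p 1 ι (f σ + g σ) = _
  rw [map_add, map_add, hP τ σ h, hQ τ σ h]
  abel

theorem loc_neg {L : Type} [Field L] [Algebra ℚ L] {f : GQ → Fin n → Pt p (AlgebraicClosure ℚ)}
    (hf : LocallyTrivial p ρ L f) : LocallyTrivial p ρ L (-f) := by
  intro ι
  obtain ⟨P, hP⟩ := hf ι
  refine ⟨-P, fun τ σ h => ?_⟩
  show move p 1 ι (- f σ) = _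
  rw [map_neg, map_neg, hP τ σ h]
  abel

theorem loc_zero (L : Type) [Field L] [Algebra ℚ L] :
    LocallyTrivial p ρ L (0 : GQ → Fin n → Pt p (AlgebraicClosure ℚ)) := by
  intro ι
  refine ⟨0, fun τ σ h => ?_⟩
  show move p 1 ι 0 = _
  rw [map_zero, map_zero, sub_zero]

variable (p ρ)

/-- The group of the cocycles which are trivial at all places. -/
noncomputable def shaCocycles : AddSubgroup (GQ → Fin n → Pt p (AlgebraicClosure ℚ)) where
  carrier := {f | IsShaCocycle p ρ f}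
  zero_mem' := ⟨cocycle_zero, fun _ => loc_zero _, fun _ => loc_zero _⟩
  add_mem' hf hg := ⟨cocycle_add hf.1 hg.1, fun v => loc_add (hf.2.1 v) (hg.2.1 v),
    fun v => loc_add (hf.2.2 v) (hg.2.2 v)⟩
  neg_mem' hf := ⟨cocycle_neg hf.1, fun v => loc_neg (hf.2.1 v), fun v => loc_neg (hf.2.2 v)⟩

/-- The group of the coboundaries. -/
noncomputable def coboundaries : AddSubgroup (GQ → Fin n → Pt p (AlgebraicClosure ℚ)) where
  carrier := {f | IsCoboundary p ρ f}
  zero_mem' := ⟨0, fun σ => by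
    show (0 : Fin n → Pt p (AlgebraicClosure ℚ)) = _
    rw [map_zero, sub_zero]⟩
  add_mem' := by
    rintro f g ⟨P, hP⟩ ⟨Q, hQ⟩
    refine ⟨P + Q, fun σ => ?_⟩
    show f σ + g σ = _
    rw [hP, hQ, map_add]
    abel
  neg_mem' := by
    rintro f ⟨P, hP⟩
    refine ⟨-P, fun σ => ?_⟩
    show - f σ = _
    rw [hP, map_neg]
    abel

/-- The Tate-Shafarevich group `Ш(A_ρ / ℚ)` of the abelian variety `A_ρ` over `ℚ`: the classes of cocycles
in `H ^ 1 (ℚ, A_ρ)` which are trivial at all places. -/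
abbrev Sha : Type :=
  shaCocycles p ρ ⧸ (coboundaries p ρ).addSubgroupOf (shaCocycles p ρ)

/-- `Ш(A_ρ / ℚ)[2 ^ ∞] = 0` and `A_ρ(ℚ) = 0`. -/
structure TwoPartTrivial : Prop where
  sha : ∀ (k : ℕ) (x : Sha p ρ), 2 ^ k • x = 0 → x = 0
  points : ∀ P : Fin n → Pt p (AlgebraicClosure ℚ),
    (∀ σ : GQ, move p (ρ σ).1 σ.toAlgHom P = P) → P = 0

end form

/-- The class `C(E, S)` for `E : y ^ 2 = x ^ 3 + A x + B`, `p = (A, B)`: the number fields `M` which are
Galois over `ℚ`, of degree a power of two, in which `2` is unramified (no prime ideal `𝔭` has `2 ∈ 𝔭 ^ 2`),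
in which all `q ∈ S` split completely (they are unramified, and every integer of `M` is congruent to
a rational integer modulo each prime over `q`) and in which only such primes `ℓ` are ramified modulo which
`x ^ 3 + A x + B` has no zero. -/
structure InClass (S : Finset ℕ) (p : ℤ × ℤ) (M : Type) [Field M] [NumberField M] : Prop where
  galois : IsGalois ℚ M
  degree : ∃ n : ℕ, Module.finrank ℚ M = 2 ^ n
  two : ∀ 𝔭 : Ideal (𝓞 M), 𝔭.IsPrime → (2 : 𝓞 M) ∉ 𝔭 ^ 2
  split : ∀ q ∈ S, ∀ 𝔭 : Ideal (𝓞 M), 𝔭.IsPrime → (q : 𝓞 M) ∈ 𝔭 →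
    (q : 𝓞 M) ∉ 𝔭 ^ 2 ∧ ∀ x : 𝓞 M, ∃ c : ℤ, x - (c : 𝓞 M) ∈ 𝔭
  ramified : ∀ ℓ : ℕ, ℓ.Prime → (∃ 𝔭 : Ideal (𝓞 M), 𝔭.IsPrime ∧ (ℓ : 𝓞 M) ∈ 𝔭 ^ 2) →
    ∀ z : ℤ, ¬ (ℓ : ℤ) ∣ z ^ 3 + p.1 * z + p.2

/-- Every number field which is generated by a square root of `ℓ` is in the class. -/
def HasQuadratic (S : Finset ℕ) (p : ℤ × ℤ) (ℓ : ℕ) : Prop :=
  ∀ (M : Type) [Field M] [NumberField M] (r : M), r ^ 2 = (ℓ : M) →
    (∀ T : Subfield M, r ∈ T → T = ⊤) → InClass S p M

/-- The union `Ω` of all images of fields in the class in the algebraic closure of `ℚ`. -/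
def Omega (S : Finset ℕ) (p : ℤ × ℤ) : Set (AlgebraicClosure ℚ) :=
  {x | ∃ (M : Type) (_ : Field M) (_ : NumberField M) (φ : M →+* AlgebraicClosure ℚ),
    InClass S p M ∧ x ∈ Set.range φ}

/-- The property of the curve `p`. -/
structure Good (K : Type) [Field K] [NumberField K] (S : Finset ℕ) (p : ℤ × ℤ) : Prop where
  /-- For ALL `n` and ALL continuous `ρ : Gal(ℚ-bar / ℚ) → GL_n(ℤ)` which are trivial on the automorphisms
  over `Ω`: `Ш(A_ρ / ℚ)[2 ^ ∞] = 0` and `A_ρ(ℚ) = 0`. -/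
  forms : ∀ (n : ℕ) (ρ : GQ →* Matrix.GeneralLinearGroup (Fin n) ℤ), IsLocallyConstant ρ →
    (∀ σ : GQ, (∀ x ∈ Omega S p, σ x = x) → ρ σ = 1) → TwoPartTrivial p ρ
  /-- `Ω` is a field, stable under all automorphisms. -/
  omega : ∃ T : Subfield (AlgebraicClosure ℚ), (T : Set (AlgebraicClosure ℚ)) = Omega S p ∧
    ∀ σ : AlgebraicClosure ℚ →+* AlgebraicClosure ℚ, ∀ x ∈ T, σ x ∈ T
  /-- `K` is in the class. -/
  base : InClass S p K
  /-- The class is closed under composita. -/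
  composita : ∀ (M₁ M₂ N : Type) [Field M₁] [NumberField M₁] [Field M₂] [NumberField M₂] [Field N]
    [NumberField N] [Algebra M₁ N] [Algebra M₂ N],
    (∀ T : Subfield N, (∀ x : M₁, algebraMap M₁ N x ∈ T) → (∀ x : M₂, algebraMap M₂ N x ∈ T) →
      T = ⊤) → InClass S p M₁ → InClass S p M₂ → InClass S p N
  /-- A set of primes `ℓ` of positive lower density for which `ℚ(√ℓ)` is in the class and `√ℓ ∈ Ω`. -/
  many : ∃ δ : ℝ, 0 < δ ∧ ∀ᶠ N : ℕ in atTop, δ * (Nat.primeCounting N : ℝ) ≤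
    (((Finset.range (N + 1)).filter fun ℓ => ℓ.Prime ∧ HasQuadratic S p ℓ ∧
      ∀ r : AlgebraicClosure ℚ, r ^ 2 = (ℓ : AlgebraicClosure ℚ) → r ∈ Omega S p).card : ℝ)

theorem crv_iff (X : ℕ) (p : ℤ × ℤ) : Pool.Agent.N922.PQ.Crv X p.1 p.2 ↔ p ∈ Curves X := by
  constructor
  · rintro ⟨h1, h2, h3, h4⟩
    exact ⟨⟨h1, h2⟩, max_le h3 h4⟩
  · rintro ⟨⟨h1, h2⟩, h3⟩
    exact ⟨h1, h2, (le_max_left _ _).trans h3, (le_max_right _ _).trans h3⟩

theorem nonempty {X : ℕ} (hX : 27 ≤ X) : ((1, 1) : ℤ × ℤ) ∈ Curves X := by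
  refine ⟨⟨by norm_num, ?_⟩, ?_⟩
  · rintro p hp ⟨h, -⟩
    have h1 : ((p : ℤ)) ∣ 1 := (dvd_pow_self (p : ℤ) (by norm_num)).trans h
    have h2 : p ∣ 1 := by exact_mod_cast h1
    exact hp.one_lt.ne' (Nat.dvd_one.1 h2)
  · have : height ((1, 1) : ℤ × ℤ) = 27 := by
      simp [height]
    rw [this]
    exact_mod_cast hX

theorem isPr_iff {q : ℕ} : Pool.Agent.N922.PQ.IsPr (q : ℤ) ↔ q.Prime := by
  constructor
  · intro h
    exact Nat.prime_iff_prime_int.2 h.2
  · intro h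
    exact ⟨by exact_mod_cast h.pos, Nat.prime_iff_prime_int.1 h⟩

/-- The class in terms of the class of the library. -/
theorem class_iff {S : Finset ℤ} (hS : ∀ Q ∈ S, Pool.Agent.N922.PQ.IsPr Q) (p : ℤ × ℤ) (M : Type)
    [Field M] [NumberField M] : InClass (S.image Int.toNat) p M ↔
      Pool.Agent.U693.UN.InClass S p.1 p.2 M := by
  have hto : ∀ P : ℤ, Pool.Agent.N922.PQ.IsPr P → ((P.toNat : ℕ) : ℤ) = P := fun P hP =>
    Int.toNat_of_nonneg hP.1.le
  constructor
  · intro h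
    refine ⟨h.galois, h.degree, h.two, fun Q hQ 𝔭 h𝔭 hm => ?_, fun P hP hex => ?_⟩
    · have h1 := h.split Q.toNat (Finset.mem_image_of_mem _ hQ) 𝔭 h𝔭
      have e : ((Q.toNat : ℕ) : 𝓞 M) = (Q : 𝓞 M) := by
        rw [← Int.cast_natCast, hto Q (hS Q hQ)]
      rw [e] at h1
      exact h1 hm
    · have h1 := h.ramified P.toNat (isPr_iff.1 (by rw [hto P hP]; exact hP))
      have e : ((P.toNat : ℕ) : 𝓞 M) = (P : 𝓞 M) := by
        rw [← Int.cast_natCast, hto P hP]
      rw [e, hto P hP] at h1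
      exact h1 hex
  · intro h
    refine ⟨h.galois, h.degree, h.two, fun q hq 𝔭 h𝔭 hm => ?_, fun ℓ hℓ hex => ?_⟩
    · obtain ⟨Q, hQ, rfl⟩ := Finset.mem_image.1 hq
      have h1 := h.split Q hQ 𝔭 h𝔭
      have e : ((Q.toNat : ℕ) : 𝓞 M) = (Q : 𝓞 M) := by
        rw [← Int.cast_natCast, hto Q (hS Q hQ)]
      rw [e] at hm ⊢
      exact h1 hm
    · have h1 := h.ram (ℓ : ℤ) (isPr_iff.2 hℓ)
      rw [Int.cast_natCast] at h1
      exact h1 hex

theorem omega_eq {S : Finset ℤ} (hS : ∀ Q ∈ S, Pool.Agent.N922.PQ.IsPr Q) (p : ℤ × ℤ) :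
    Omega (S.image Int.toNat) p = Pool.Agent.U693.UN.Om (AlgebraicClosure ℚ) S p.1 p.2 := by
  ext x
  constructor
  · rintro ⟨M, i1, i2, φ, hM, hx⟩
    exact ⟨M, i1, i2, φ, (class_iff hS p M).1 hM, hx⟩
  · rintro ⟨M, i1, i2, φ, hM, hx⟩
    exact ⟨M, i1, i2, φ, (class_iff hS p M).2 hM, hx⟩

theorem move_eq {n : ℕ} (p : ℤ × ℤ) (g : Matrix (Fin n) (Fin n) ℤ) {L L' : Type} [Field L]
    [Field L'] [Algebra ℚ L] [Algebra ℚ L'] (φ : L →ₐ[ℚ] L') (P : Fin n → Pt p L) :
    move p g φ P = Pool.Agent.U693.AV.mat (Pool.Agent.U693.SH.cQ p.1 p.2) g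
      (Pool.Agent.U693.AV.maps (Pool.Agent.U693.SH.cQ p.1 p.2) φ P) := rfl

/-- There are no points over `M`. -/
theorem np_of {M : Type} [Field M] [NumberField M] {p : ℤ × ℤ}
    (h : Subsingleton (Pool.Agent.TH115.GD.Pt (Pool.Agent.N874.PP.sW (p.1 : M) (p.2 : M)) M))
    (P : Pool.Agent.TH115.GD.Pt (Pool.Agent.U693.SH.cQ p.1 p.2) M) : P = 0 := by
  have h5 : (Pool.Agent.U693.SH.tq p.1 p.2 M M).symm P = 0 := Subsingleton.elim _ _
  rw [← (Pool.Agent.U693.SH.tq p.1 p.2 M M).apply_symm_apply P, h5, map_zero]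

/-- The forms which are split by a field over which the theorem on the elliptic curve holds. -/
theorem form_of {M : Type} [Field M] [NumberField M] [IsGalois ℚ M] {p : ℤ × ℤ} {n : ℕ}
    {ρ : GQ →* Matrix.GeneralLinearGroup (Fin n) ℤ}
    {ε : AlgebraicClosure ℚ ≃ₐ[ℚ] Pool.Agent.TH115.GD.Sep M}
    (hρ : ∀ σ : Pool.Agent.TH115.GD.Sep M ≃ₐ[M] Pool.Agent.TH115.GD.Sep M,
      ρ (Pool.Agent.U693.AV.dn ε σ) = 1)
    (h : Pool.Agent.N922.PQ.GoodV (M := M) (𝓞 M) p) : TwoPartTrivial p ρ := by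
  have hnp := np_of (p := p) h.2.1
  refine ⟨fun k x hx => ?_, fun P hP => Pool.Agent.U693.AV.core_pts hρ hnp hP⟩
  obtain ⟨f, rfl⟩ := QuotientAddGroup.mk_surjective x
  have h2 : (QuotientAddGroup.mk (2 ^ k • f) : Sha p ρ) = 0 := hx
  rw [QuotientAddGroup.eq_zero_iff, AddSubgroup.mem_addSubgroupOf] at h2
  obtain ⟨P, hP⟩ := h2
  refine (QuotientAddGroup.eq_zero_iff f).2 ?_
  rw [AddSubgroup.mem_addSubgroupOf]
  have hf := f.2
  have hcoc : Pool.Agent.U693.AV.TCoc (Pool.Agent.U693.SH.cQ p.1 p.2) ρ f.1 := ⟨hf.1.1, hf.1.2⟩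
  have hloc : ∀ v : IsDedekindDomain.HeightOneSpectrum (𝓞 ℚ),
      Pool.Agent.U693.AV.TLoc (Pool.Agent.U693.SH.cQ p.1 p.2) ρ (v.adicCompletion ℚ) f.1 := by
    intro v ι
    obtain ⟨P, hP⟩ := hf.2.1 v ι
    refine ⟨P, fun τ σ hτ => ?_⟩
    have h3 := hP τ σ hτ
    rw [move_eq] at h3
    exact (Pool.Agent.U693.AV.mat_one _).symm.trans h3
  obtain ⟨T, hT⟩ := Pool.Agent.U693.AV.core hρ hnp h.2.2 hcoc hloc (k := k) ⟨P, fun σ => hP σ⟩
  exact ⟨T, fun σ => hT σ⟩

/-- For every Galois extension `K / ℚ` of degree `2 ^ n` in which `2` is unramified there are a finite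
set `S` of primes, all `1` modulo `8`, and `c > 0` such that for all large `X` at least `c` times the number of
all elliptic curves `E` over `ℚ` of height at most `X` have the property `Good K S`: for ALL abelian
varieties `A_ρ` over `ℚ`, `ρ : Gal(ℚ-bar / ℚ) → GL_n(ℤ)` continuous and trivial over `Ω`, `n` arbitrary,
`Ш(A_ρ / ℚ)[2 ^ ∞] = 0` and `A_ρ(ℚ) = 0`. Here `Ω` is an infinite Galois extension, the union of all the
fields in the class `C(E, S)`; `K` is in this class, which is closed under composita and contains `ℚ(√ℓ)`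
for a set of primes `ℓ` of positive lower density. -/
theorem result (K : Type) [Field K] [NumberField K] [IsGalois ℚ K] (n : ℕ)
    (hn : Module.finrank ℚ K = 2 ^ n)
    (h2 : ∀ 𝔭 : Ideal (𝓞 K), 𝔭.IsPrime → (2 : 𝓞 K) ∉ 𝔭 ^ 2) :
    (∀ X : ℕ, (Curves X).Finite) ∧
    ∃ S : Finset ℕ, (∀ q ∈ S, q.Prime ∧ q % 8 = 1) ∧ ∃ c : ℝ, 0 < c ∧ ∀ᶠ X : ℕ in atTop,
      0 < (Curves X).ncard ∧
      c * ((Curves X).ncard : ℝ) ≤ (({p ∈ Curves X | Good K S p}).ncard : ℝ) := by
  have hset : ∀ X : ℕ, Curves X = {p : ℤ × ℤ | Pool.Agent.N922.PQ.Crv X p.1 p.2} := by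
    intro X
    ext p
    exact (crv_iff X p).symm
  have hfin : ∀ X : ℕ, (Curves X).Finite := fun X => by
    rw [hset]
    exact Pool.Agent.N922.PQ.crv_fin X
  refine ⟨hfin, ?_⟩
  obtain ⟨S, hS, c, hc, X₀, h⟩ := Pool.Agent.U693.UN.finalU K hn h2
  have hSp : ∀ Q ∈ S, Pool.Agent.N922.PQ.IsPr Q := fun Q hQ => (hS Q hQ).1
  refine ⟨S.image Int.toNat, ?_, c, hc, ?_⟩
  · intro q hq
    obtain ⟨Q, hQ, rfl⟩ := Finset.mem_image.1 hq
    obtain ⟨h3, h4⟩ := hS Q hQ
    have e : ((Q.toNat : ℕ) : ℤ) = Q := Int.toNat_of_nonneg h3.1.le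
    refine ⟨isPr_iff.1 (by rw [e]; exact h3), by omega⟩
  filter_upwards [eventually_ge_atTop (max X₀ 27)] with X hX
  refine ⟨(Set.ncard_pos (hfin X)).2 ⟨_, nonempty ((le_max_right _ _).trans hX)⟩, ?_⟩
  have h1 := (h X ((le_max_left _ _).trans hX)).2
  rw [← hset] at h1
  refine h1.trans ?_
  have h3 : {p : ℤ × ℤ | Pool.Agent.N922.PQ.Crv X p.1 p.2 ∧
      (Pool.Agent.U693.UN.InClass S p.1 p.2 K ∧
        (∀ z : ℤ, ¬ (2 : ℤ) ∣ z ^ 3 + p.1 * z + p.2) ∧
        ∀ (M : Type) [Field M] [NumberField M], Pool.Agent.U693.UN.InClass S p.1 p.2 M →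
          Pool.Agent.N922.PQ.GoodV (M := M) (𝓞 M) p)} ⊆
        {p ∈ Curves X | Good K (S.image Int.toNat) p} := by
    rintro p ⟨hp, hK, hnz, hgood⟩
    have hpC := (crv_iff X p).1 hp
    have hd : 4 * p.1 ^ 3 + 27 * p.2 ^ 2 ≠ 0 := hpC.1.elliptic
    have homega := omega_eq hSp p
    refine ⟨hpC, ?_⟩
    refine ⟨?_, ?_, (class_iff hSp p K).2 hK, ?_, ?_⟩
    · intro m ρ hc hρ
      rw [homega] at hρ
      obtain ⟨T, hT⟩ := Pool.Agent.U693.UN.om_field hSp
        ((IsAlgClosed.lift : K →ₐ[ℚ] AlgebraicClosure ℚ) : K →+* AlgebraicClosure ℚ) hK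
      obtain ⟨M, i1, i2, hM, ε, hε⟩ := Pool.Agent.U693.AV.exists_split ρ hc T hT
        (fun σ hσ => hρ σ (fun x hx => hσ x (by
          rw [← hT] at hx
          exact hx)))
      haveI := hM.galois
      exact form_of hε (hgood M hM)
    · obtain ⟨T, hT⟩ := Pool.Agent.U693.UN.om_field hSp
        ((IsAlgClosed.lift : K →ₐ[ℚ] AlgebraicClosure ℚ) : K →+* AlgebraicClosure ℚ) hK
      have hmem : ∀ x, x ∈ T ↔ x ∈ Pool.Agent.U693.UN.Om (AlgebraicClosure ℚ) S p.1 p.2 := by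
        intro x
        rw [← hT]
        rfl
      refine ⟨T, by rw [hT, homega], ?_⟩
      intro σ x hx
      rw [hmem] at hx ⊢
      exact Pool.Agent.U693.UN.om_stable σ hx
    · intro M₁ M₂ N _ _ _ _ _ _ _ _ hg h₁ h₂
      have h₁' := (class_iff hSp p M₁).1 h₁
      have h₂' := (class_iff hSp p M₂).1 h₂
      haveI := h₁'.galois
      haveI := h₂'.galois
      exact (class_iff hSp p N).2 (Pool.Agent.U693.UN.InClass.comp hSp hg h₁' h₂')
    · obtain ⟨δ, hδ, hev⟩ := Pool.Agent.U693.UN.dens S (fun Q hQ => (hSp Q hQ).2.ne_zero) hnz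
      refine ⟨δ, hδ, ?_⟩
      filter_upwards [hev] with N hN
      refine hN.trans ?_
      have hsub : ((Finset.range (N + 1)).filter fun ℓ => ℓ.Prime ∧
          Pool.Agent.U693.UN.Tp p.1 p.2 S ℓ) ⊆ ((Finset.range (N + 1)).filter fun ℓ => ℓ.Prime ∧
            HasQuadratic (S.image Int.toNat) p ℓ ∧ ∀ r : AlgebraicClosure ℚ,
              r ^ 2 = (ℓ : AlgebraicClosure ℚ) → r ∈ Omega (S.image Int.toNat) p) := by
        intro ℓ hℓ
        rw [Finset.mem_filter] at hℓ ⊢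
        have hq := Pool.Agent.U693.UN.quad_of_Tp hS hℓ.2.1 hℓ.2.2
        refine ⟨hℓ.1, hℓ.2.1, ?_, ?_⟩
        · intro M _ _ r hr hgen
          exact (class_iff hSp p M).2 (hq M r (by rw [hr, Int.cast_natCast]) hgen)
        · intro r hr
          rw [homega]
          exact Pool.Agent.U693.UN.om_sqrt (d := (ℓ : ℤ)) (fun M _ _ r hr hgen => hq M r hr hgen)
            (by rw [hr, Int.cast_natCast])
      exact_mod_cast Finset.card_le_card hsub
  have h4 := Set.ncard_le_ncard h3 ((hfin X).subset fun p hp => hp.1)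
  exact_mod_cast h4

end Pool.Agent.Results.MP_a43263_nt.AllFormsOfPowers
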