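import Mathlib
import Pool.Agent.TH841.SH.ShaDef
import Pool.Agent.U213.SM.ProdDef
import Pool.Agent.U409.GM.M6

/-!
# Abelian varieties of any dimension: the law of `Ш[2]` in the families of products of quadratic
# twists by the values of arbitrary polynomials

Let `C_i : y² = x³ + a_i x² + c_i x`, `i < N`, be elliptic curves over `ℚ` such that `c_i` or
`n_i = a_i² - 4 c_i` is a square. These are the elliptic curves over `ℚ` with a rational point of
order 2 that have full rational 2-torsion (`n_i` a square) or whose 2-isogenous curve has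
(`c_i` a square); the curves may be different and need not be isogenous. Let `D_i` be ANY nonzero
polynomials with integer coefficients and let `A_t` be the product of the quadratic twists of the
`C_i` by `D_i(t)`, an abelian variety of dimension `N` (if all the `D_i` are equal to `D`, this is the
twist of the abelian variety `C_1 × ... × C_N` by `D(t)`). Let `R` contain representatives of the
irreducible polynomials that have odd multiplicity in some `D_i`, and let `m_ij(n)` be the number of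
the `f ∈ R` that have odd multiplicity in `D_i` and in `D_j` and stay irreducible over `ℚ(√n)`
(`m_ij(n) = 0` if `n` is a square). Let

`μ = (1/2) ∑ i, m_ii(n_i)`, `ν = (1/4) ∑ i j, (m_ij(n_i) + m_ij(n_j) - m_ij(n_i n_j))`.

If `m_ii(n_i) ≥ 1` for some `i`, then `ν > 0` and `log₂ #Ш(A_t/ℚ)[2]`, `|t| ≤ X`, has a limiting
normal distribution with mean `μ log log X` and variance `ν log log X`. If `m_ii(n_i) = 0` for all
`i`, then `#Ш(A_t/ℚ)[2]` is bounded in probability.
-/

set_option autoImplicit false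

namespace Pool.Agent.Results.MP_a43263_nt.GaussianShaProducts

open Finset Filter Polynomial Topology
open Pool.Agent.U213.SM (ShaTorP)

/-- the curve `y² = x³ + a d x² + c d² x` over `ℚ`, the twist by `d` of `y² = x³ + a x² + c x` -/
def W (a c d : ℤ) : WeierstrassCurve ℚ := ⟨0, (a : ℚ) * d, 0, (c : ℚ) * (d : ℚ) ^ 2, 0⟩

/-- the number `a² - 4 c`; the 2-division field of `y² = x³ + a x² + c x` is `ℚ(√(a² - 4 c))` -/
def disc (a c : ℤ) : ℤ := a ^ 2 - 4 * c

open scoped Classical in
/-- the number of the polynomials `f ∈ R` that have odd multiplicity in `D₁` and in `D₂` and are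
irreducible over `ℚ(√n)`; it is `0` if `n` is a square -/
noncomputable def m (R : Finset ℤ[X]) (D₁ D₂ : ℤ[X]) (n : ℤ) : ℕ :=
  ((R.filter (fun f => Odd (multiplicity f D₁) ∧ Odd (multiplicity f D₂))).filter
    (fun f => ¬ IsSquare n ∧
      Irreducible (f.map (Int.castRingHom (QuadraticAlgebra ℚ (n : ℚ) 0))))).card

variable {N : ℕ}

/-- the constant of the mean -/
noncomputable def μ (R : Finset ℤ[X]) (D : Fin N → ℤ[X]) (a c : Fin N → ℤ) : ℝ :=
  (∑ i, (m R (D i) (D i) (disc (a i) (c i)) : ℝ)) / 2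

/-- the constant of the variance -/
noncomputable def ν (R : Finset ℤ[X]) (D : Fin N → ℤ[X]) (a c : Fin N → ℤ) : ℝ :=
  (∑ i, ∑ j, ((m R (D i) (D j) (disc (a i) (c i)) : ℝ) + m R (D i) (D j) (disc (a j) (c j)) -
    m R (D i) (D j) (disc (a i) (c i) * disc (a j) (c j)))) / 4

/-- the order of `Ш(A/ℚ)[2]` for `A = ∏ i, W (a i) (c i) (d i)` (`ShaTorP` of
`Pool.Agent.U213.SM.ProdDef`: the classes of the continuous cocycles of the absolute Galois group of
`ℚ` with values in the points of the product that are locally trivial everywhere, killed by `2`) -/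
noncomputable def sha (a c d : Fin N → ℤ) : ℕ :=
  Nat.card (ShaTorP (fun i => W (a i) (c i) (d i)) 2)

open scoped Classical in
/-- the integers `t`, `|t| ≤ X`, with `D_i (t) ≠ 0` for all `i` and
`log₂ #Ш(A_t/ℚ)[2] ≤ μ log log X + x √(ν log log X)` -/
noncomputable def Below (a c : Fin N → ℤ) (D : Fin N → ℤ[X]) (μ ν x : ℝ) (X : ℕ) : Finset ℤ :=
  (Icc (-(X : ℤ)) X).filter (fun t => (∀ i, (D i).eval t ≠ 0) ∧
    Real.logb 2 (sha a c (fun i => (D i).eval t)) ≤
      μ * Real.log (Real.log X) + x * Real.sqrt (ν * Real.log (Real.log X)))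

open scoped Classical in
/-- the integers `t`, `|t| ≤ X`, with `D_i (t) ≠ 0` for all `i` and `#Ш(A_t/ℚ)[2] > T` -/
noncomputable def Above (a c : Fin N → ℤ) (D : Fin N → ℤ[X]) (T : ℕ) (X : ℕ) : Finset ℤ :=
  (Icc (-(X : ℤ)) X).filter (fun t => (∀ i, (D i).eval t ≠ 0) ∧
    T < sha a c (fun i => (D i).eval t))

open Pool.Agent.U409.GM in
/-- **The law of `Ш[2]` in the families of products of twists of elliptic curves.** -/
theorem result (N : ℕ) (a c : Fin N → ℤ) (hc : ∀ i, c i ≠ 0) (hn : ∀ i, disc (a i) (c i) ≠ 0)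
    (h : ∀ i, IsSquare (c i) ∨ IsSquare (disc (a i) (c i)))
    (D : Fin N → ℤ[X]) (hD : ∀ i, D i ≠ 0) (R : Finset ℤ[X])
    (hR : ∀ f ∈ R, Irreducible f ∧ 0 < f.natDegree)
    (hRn : ∀ f ∈ R, ∀ g ∈ R, f ≠ g → ¬ Associated f g)
    (hRc : ∀ i, ∀ f : ℤ[X], Irreducible f → 0 < f.natDegree → Odd (multiplicity f (D i)) →
      ∃ g ∈ R, Associated f g) :
    (∀ t : ℤ, (∀ i, (D i).eval t ≠ 0) →
      Finite (ShaTorP (fun i => W (a i) (c i) ((D i).eval t)) 2)) ∧
    ((∃ i, 0 < m R (D i) (D i) (disc (a i) (c i))) → 0 < ν R D a c ∧ ∀ x : ℝ,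
      Tendsto (fun X : ℕ => ((Below a c D (μ R D a c) (ν R D a c) x X).card : ℝ) / (2 * X + 1))
        atTop (𝓝 ((Real.sqrt (2 * Real.pi))⁻¹ * ∫ y in Set.Iic x, Real.exp (-y ^ 2 / 2)))) ∧
    ((∀ i, m R (D i) (D i) (disc (a i) (c i)) = 0) → ∀ ε : ℝ, 0 < ε →
      ∃ T : ℕ, ∀ᶠ X : ℕ in atTop, ((Above a c D T X).card : ℝ) ≤ ε * (2 * X + 1)) :=
  ⟨fun _ ht => (card_prod hc hn h ht).1, fun hex => gauss_multi hc hn h hD hR hRn hRc hex,
    fun hm _ hε => tight_multi hc hn h hD hRc hm hε⟩

end Pool.Agent.Results.MP_a43263_nt.GaussianShaProducts
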