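import Pool.Agent.U972.Y.All

/-!
# An exact formula for the rank and for `Ш[1 - ζ]` of the twists by all characters of order `3 ^ k`,
a criterion for the vanishing of the 3-primary part of `Ш`, and its law for the new primes

`K = ℚ(ω)`, `E : y² + y = x³`, `k ≥ 1`. For a character `χ` that is a product of characters of exact
order `3 ^ k` modulo `m ≥ 1` different Eisenstein primes `π j`, `1` modulo `3`, with norm `1` modulo
`3 ^ (k + 1)`, the abelian variety `A` over `K`, of dimension `3 ^ (k - 1)`, is the twist of
`E ⊗ ℤ[ζ]` by `χ`; its restriction of scalars `B` to `ℚ` has dimension `2 * 3 ^ (k - 1)`, and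
`Ш(B / ℚ) = Ш(A / K)`. A character modulo `π` of exact order `3 ^ k` has the type `e ∈ {1, 2}` if its
power with the exponent `3 ^ (k - 1)` is the `e`-th power of the cubic residue symbol. Let `L` be the
matrix `x ↦ (∑ i, e i (π i / π j) (x i - x j))_j` over `𝔽₃` and `n = nul π e` its nullity (`n ≥ 1`).

* **For every such character with `D = ∏ j, π j ^ e j` not `1` modulo `9`:** the rank of
  `B(ℚ) = A(K)` is `2 * 3 ^ (k - 1) * r` and `Ш(B / ℚ)[1 - ζ]` has order `3 ^ s`, where
  `r + s = n - 1` (`Arith`). In particular the number `r + s`, an upper bound for the rank over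
  `ℤ[ζ]` and for the number of generators of `Ш(B / ℚ)[3 ^ ∞]` over `ℤ[ζ]`, is determined by
  the cubic residue symbols between the primes, and does not depend on `k` or on the characters,
  except for the types.
* **`B(ℚ)` is finite and the `3`-primary part of `Ш(B / ℚ)` is zero if and only if `n = 1`, if and
  only if the value `L(B, 1)`, which is `Ω ^ (2 * 3 ^ (k - 1)) * 3 ^ (m - 1)` times a number that is
  integral above `3`, has the smallest possible valuation (at one, or at all, of the places above
  `3`)** (`Anal`; the same for the single values `L(ψ χ ^ t, 1) = Ω (1 - ζ) ^ (m - 1) u`,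
  `t` prime to `3`; if `n = 1` these values are not zero).
* **The law.** Given is a family, finite or infinite, of members `χ_i`, as above but with `m i ≥ 0`
  primes, all primes different, and a class `r` modulo `9` such that neither `D_i r` nor `D_i r ^ 2`
  is `1` modulo `9`. Let `ρ` run through the new primes: `ρ = r` modulo `9`, with norm `1` modulo
  `3 ^ (k + 1)` (one third of all these primes). For ALL characters `λ` modulo `ρ` of exact order
  `3 ^ k` the statements above hold for `χ_i λ`, where `n - 1` is the first of the numbers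
  `pairAt (π i) (e i) ρ` for the characters of the type `1`, and the second for the type `2`. For
  the sets `S i` of pairs, the proportion of the new primes with `pairAt (π i) (e i) ρ ∈ S i`
  for the `i` in a finite set `I` tends to `∏_{i ∈ I} κ_i (S i)`, where `κ_i` is the distribution
  of the pair of the nullities of `L_i - diag u` and `L_i + diag u` for a random vector `u`. So the
  ranks of the members are independent; `κ_i {(0, 0)} ≥ 3 ^ (-m i)`, and if the
  sum of the `κ_i (S i)` diverges, then for every `N` all new primes but a set of density zero have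
  `pairAt (π i) (e i) ρ ∈ S i` for at least `N` members.

The starting library proves, for `n = 1`, that `A(K)` has order `3`, that `Ш(A / K)[3 ^ ∞] = 0` and the
valuation of the values (`MP_dfae13_nt.ThreePartTwists`). New here: the exact order of the
`(1 - ζ)`-Selmer group and the formula for the rank and `Ш[1 - ζ]` for all characters (all classes given
by kernel vectors of `L` are locally trivial at all places, `Y.ker_loc`), the converse of the criterion,
its equivalence to an exact valuation, the case `k = 1` in the same form, and the joint law of all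
ranks, for all characters modulo the new prime.

The definitions are in `Pool.Agent.Y715.T.St`, `Pool.Agent.U972.TP.St` and `Pool.Agent.U972.Y.St`.
-/

set_option autoImplicit false

open Pool.Agent.Y715.T.St Pool.Agent.U972.TP.St Pool.Agent.U972.Y.St Filter Topology
open scoped Classical

/-- **The formula for the rank and `Ш[1 - ζ]`, the criterion, and the law for the new primes.** -/
theorem Pool.Agent.Results.MP_a43263_nt.RankAndShaLaw.result (k : ℕ) (hk : 1 ≤ k)
    (ζ : ℂ) (hζ : ζ ^ 3 ^ (k - 1) = omega) :
    -- the formula and the criterion for every character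
    EveryCharacter k ζ ∧
    -- the members of a family: the primes `π i j`, the characters `lam i j`, their types `e i j`,
    -- and the class of the new primes modulo `9`
    ∀ (ι : Type) (m : ι → ℕ) (π : ∀ i, Fin (m i) → Eis) (_ : ∀ i j, Adm k (π i j))
      (lam : ∀ i j, MulChar (Eis ⧸ Ideal.span {π i j}) ℂ) (e : ∀ i, Fin (m i) → ZMod 3)
      (_ : ∀ i j, HasType k (π i j) (lam i j) (e i j))
      (_ : Function.Injective fun x : Σ i, Fin (m i) => π x.1 x.2)
      (r : Eis) (_ : (3 * ⟨1, 2⟩ : Eis) ∣ r - 1)
      (_ : ∀ i, ¬ (9 : Eis) ∣ (∏ j, π i j ^ (e i j).val) * r - 1 ∧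
        ¬ (9 : Eis) ∣ (∏ j, π i j ^ (e i j).val) * r ^ 2 - 1),
      -- the twists by all characters of exact order `3 ^ k` modulo a new prime
      (∀ ρ, New k r ρ → ∀ i, AtNewPrime k ζ (π i) (lam i) (e i) ρ) ∧
      -- the joint law
      (∀ (I : Finset ι) (S : ι → Set (ℕ × ℕ)),
        Tendsto (share k r fun ρ => ∀ i ∈ I, pairAt (π i) (e i) ρ ∈ S i) atTop
          (𝓝 (∏ i ∈ I, kap (π i) (e i) (S i)))) ∧
      -- the new primes are a third of the primes, and the probability of `n = 1` is positive
      Tendsto (fun X : ℕ => (count (New k r) X : ℝ) / (count (Adm k) X : ℝ)) atTop (𝓝 (1 / 3)) ∧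
      (∀ i, (1 / 3 : ℝ) ^ m i ≤ kap (π i) (e i) {(0, 0)}) ∧
      -- infinite families
      (∀ S : ι → Set (ℕ × ℕ), (¬ Summable fun i => kap (π i) (e i) (S i)) → ∀ N : ℕ,
        Tendsto (share k r fun ρ =>
          ∃ T : Finset ι, T.card = N ∧ ∀ i ∈ T, pairAt (π i) (e i) ρ ∈ S i) atTop (𝓝 1)) := by
  refine ⟨fun m hm π hπ hinj lam e hlam hodd =>
    Pool.Agent.U972.Y.member hk hm hπ hinj hlam hodd hζ, ?_⟩
  intro ι m π hπ lam e hlam hinj r hr h9
  have hinj1 : ∀ i, Function.Injective (π i) := by
    intro i a b hab
    have h := @hinj ⟨i, a⟩ ⟨i, b⟩ hab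
    simpa using h
  obtain ⟨h1, h2, h3, h4⟩ := Pool.Agent.U972.Y.laws1 hk hπ e hinj r hr
  refine ⟨?_, h1, h2, h3, h4⟩
  intro ρ hρ i hne lam' hext hlast
  exact Pool.Agent.U972.Y.new_prime hk (hπ i) (hinj1 i) (hlam i) (h9 i) hζ hρ.1 hρ.2 hne lam' hext
    hlast
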